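import Pool.Agent.Run7.h991.BC.Iface

set_option autoImplicit false

open MeasureTheory Filter Topology
open scoped ContDiff

namespace Pool.Agent.Run7.h557.BC

open Run7.h991.BC

theorem norm_le_of_coord {n : ℕ} (v : E n) {c : ℝ} (hc : 0 ≤ c) (h : ∀ i, |v i| ≤ c) :
    ‖v‖ ≤ c * Real.sqrt n := by
  rw [EuclideanSpace.norm_eq]
  calc Real.sqrt (∑ i, ‖v i‖ ^ 2) ≤ Real.sqrt (∑ _i : Fin n, c ^ 2) := by
        apply Real.sqrt_le_sqrt
        refine Finset.sum_le_sum (fun i _ => ?_)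
        rw [Real.norm_eq_abs]
        exact pow_le_pow_left₀ (abs_nonneg _) (h i) 2
    _ = c * Real.sqrt n := by
        rw [Finset.sum_const, Finset.card_univ, Fintype.card_fin, nsmul_eq_mul,
          Real.sqrt_mul (Nat.cast_nonneg n), Real.sqrt_sq hc, mul_comm]

theorem coord_le_norm {n : ℕ} (v : E n) (i : Fin n) : |v i| ≤ ‖v‖ := by
  have := EuclideanSpace.norm_eq v
  rw [this]
  apply Real.le_sqrt_of_sq_le
  rw [sq_abs]
  have h1 : (v i) ^ 2 = ‖v i‖ ^ 2 := by rw [Real.norm_eq_abs, sq_abs]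
  rw [h1]
  exact Finset.single_le_sum (f := fun i => ‖v i‖ ^ 2) (fun j _ => by positivity)
    (Finset.mem_univ i)

theorem ctr_apply {n : ℕ} (j : ℕ) (m : Fin n → ℤ) (i : Fin n) :
    (ctr j m) i = (1 / 2 : ℝ) ^ j * ((m i : ℝ) + 1 / 2) := rfl

theorem two_half (j : ℕ) : (2 : ℝ) ^ j * (1 / 2 : ℝ) ^ j = 1 := by
  rw [← mul_pow]; norm_num

theorem ctr_mem {n : ℕ} (j : ℕ) (m : Fin n → ℤ) : ctr j m ∈ cube j m := by
  show cell j (ctr j m) = m
  funext i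
  show ⌊(2 : ℝ) ^ j * (ctr j m) i⌋ = m i
  rw [ctr_apply, ← mul_assoc, two_half, one_mul, Int.floor_eq_iff]
  constructor <;> linarith

theorem mem_cube_iff {n : ℕ} (j : ℕ) (m : Fin n → ℤ) (x : E n) :
    x ∈ cube j m ↔ ∀ i, (m i : ℝ) ≤ (2 : ℝ) ^ j * x i ∧ (2 : ℝ) ^ j * x i < m i + 1 := by
  constructor
  · intro hx i
    have h : ⌊(2 : ℝ) ^ j * x i⌋ = m i := congrFun hx i
    exact Int.floor_eq_iff.1 h
  · intro h
    show cell j x = m
    funext i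
    exact Int.floor_eq_iff.2 (h i)

theorem geo : S_GEO := by
  intro n hn
  have hn0 : (0 : ℝ) < n := by exact_mod_cast hn
  have hs : 0 < Real.sqrt n := Real.sqrt_pos.2 hn0
  let b : ContDiffBump (0 : E n) := ⟨Real.sqrt n, 2 * Real.sqrt n, hs, by linarith⟩
  refine ⟨b, b.contDiff, b.hasCompactSupport, fun y => ⟨b.nonneg, b.le_one⟩, ?_, ?_⟩
  · intro g m x hx
    apply b.one_of_mem_closedBall
    rw [mem_closedBall_zero_iff]
    show _ ≤ Real.sqrt n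
    have h1 : ‖(2 : ℝ) ^ g • x - (2 : ℝ) ^ g • ctr g m‖ ≤ 1 / 2 * Real.sqrt n := by
      apply norm_le_of_coord _ (by norm_num)
      intro i
      have h2 := (mem_cube_iff g m x).1 hx i
      have h3 : ((2 : ℝ) ^ g • x - (2 : ℝ) ^ g • ctr g m) i =
          (2 : ℝ) ^ g * x i - ((m i : ℝ) + 1 / 2) := by
        show (2 : ℝ) ^ g * x i - (2 : ℝ) ^ g * ((ctr g m) i) = _
        rw [ctr_apply, ← mul_assoc, two_half, one_mul]
      rw [h3, abs_le]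
      constructor <;> linarith [h2.1, h2.2]
    linarith
  · intro g t m m' hsub
    have hz : ∀ i, |((2 : ℝ) ^ (g + 1) • (ctr (g + 1 + t) m' - ctr (g + 1) m)) i| ≤ 3 / 2 := by
      intro i
      have h1 := (mem_cube_iff g (par m) _).1 (hsub (ctr_mem (g + 1 + t) m')) i
      have h3 : ((2 : ℝ) ^ (g + 1) • (ctr (g + 1 + t) m' - ctr (g + 1) m)) i =
          (2 : ℝ) ^ (g + 1) * (ctr (g + 1 + t) m') i - ((m i : ℝ) + 1 / 2) := by
        show (2 : ℝ) ^ (g + 1) * ((ctr (g + 1 + t) m') i - (ctr (g + 1) m) i) = _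
        rw [mul_sub, ctr_apply (g + 1) m, ← mul_assoc ((2 : ℝ) ^ (g + 1)) ((1 / 2 : ℝ) ^ (g + 1)),
          two_half, one_mul]
      rw [h3]
      have h4 : ((par m) i : ℝ) * 2 ≤ m i ∧ (m i : ℝ) ≤ ((par m) i : ℝ) * 2 + 1 := by
        have h5 : m i / 2 * 2 ≤ m i ∧ m i ≤ m i / 2 * 2 + 1 := by omega
        have h6 : (((m i / 2 * 2 : ℤ) : ℝ)) ≤ (m i : ℝ) := by exact_mod_cast h5.1
        have h7 : (m i : ℝ) ≤ (((m i / 2 * 2 + 1 : ℤ) : ℝ)) := by exact_mod_cast h5.2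
        push_cast at h6 h7
        exact ⟨h6, h7⟩
      have h8 : (2 : ℝ) ^ (g + 1) * (ctr (g + 1 + t) m') i =
          2 * ((2 : ℝ) ^ g * (ctr (g + 1 + t) m') i) := by rw [pow_succ]; ring
      rw [h8, abs_le]
      constructor <;> linarith [h1.1, h1.2, h4.1, h4.2]
    have hzn : ‖(2 : ℝ) ^ (g + 1) • (ctr (g + 1 + t) m' - ctr (g + 1) m)‖ ≤ 3 / 2 * Real.sqrt n :=
      norm_le_of_coord _ (by norm_num) hz
    refine ⟨by linarith, ?_⟩
    intro l hl hle x hx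
    have hball : (2 : ℝ) ^ (g + 1) • (ctr (g + 1 + t) m' - ctr (g + 1) m) +
          l⁻¹ • (((2 : ℝ) ^ (g + 1) • x - (2 : ℝ) ^ (g + 1) • ctr (g + 1) m) -
            (2 : ℝ) ^ (g + 1) • (ctr (g + 1 + t) m' - ctr (g + 1) m)) ∈
        Function.support b := hx
    rw [b.support_eq, mem_ball_zero_iff] at hball
    have hball' : ‖(2 : ℝ) ^ (g + 1) • (ctr (g + 1 + t) m' - ctr (g + 1) m) +
          l⁻¹ • (((2 : ℝ) ^ (g + 1) • x - (2 : ℝ) ^ (g + 1) • ctr (g + 1) m) -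
            (2 : ℝ) ^ (g + 1) • (ctr (g + 1 + t) m' - ctr (g + 1) m))‖ < 2 * Real.sqrt n := hball
    have hdiff : ((2 : ℝ) ^ (g + 1) • x - (2 : ℝ) ^ (g + 1) • ctr (g + 1) m) -
            (2 : ℝ) ^ (g + 1) • (ctr (g + 1 + t) m' - ctr (g + 1) m) =
        (2 : ℝ) ^ (g + 1) • (x - ctr (g + 1 + t) m') := by
      rw [smul_sub, smul_sub]; abel
    rw [hdiff] at hball'
    set z := (2 : ℝ) ^ (g + 1) • (ctr (g + 1 + t) m' - ctr (g + 1) m) with hzdef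
    set y := (2 : ℝ) ^ (g + 1) • (x - ctr (g + 1 + t) m') with hydef
    have h1 : ‖l⁻¹ • y‖ ≤ 7 / 2 * Real.sqrt n := by
      have h2 : l⁻¹ • y = (z + l⁻¹ • y) - z := by abel
      rw [h2]
      calc ‖(z + l⁻¹ • y) - z‖ ≤ ‖z + l⁻¹ • y‖ + ‖z‖ := norm_sub_le _ _
        _ ≤ 7 / 2 * Real.sqrt n := by linarith
    rw [norm_smul, norm_inv, Real.norm_eq_abs, abs_of_pos hl, inv_mul_le_iff₀ hl] at h1
    have h3 : ‖y‖ ≤ 7 / 16 * (1 / 2) ^ t := by
      calc ‖y‖ ≤ l * (7 / 2 * Real.sqrt n) := h1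
        _ ≤ (1 / 2) ^ t / (8 * Real.sqrt n) * (7 / 2 * Real.sqrt n) :=
            mul_le_mul_of_nonneg_right hle (by positivity)
        _ = 7 / 16 * (1 / 2) ^ t := by field_simp; ring
    rw [mem_cube_iff]
    intro i
    have h4 : |y i| ≤ 7 / 16 * (1 / 2) ^ t := (coord_le_norm y i).trans h3
    have h5 : y i = (2 : ℝ) ^ (g + 1) * (x i - (ctr (g + 1 + t) m') i) := rfl
    have h6 : (2 : ℝ) ^ t * (1 / 2 : ℝ) ^ t = 1 := two_half t
    have h7 : (2 : ℝ) ^ (g + 1 + t) * x i - ((m' i : ℝ) + 1 / 2) = (2 : ℝ) ^ t * y i := by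
      rw [h5, ctr_apply, mul_sub, mul_sub]
      have h8 : (2 : ℝ) ^ t * ((2 : ℝ) ^ (g + 1) * ((1 / 2) ^ (g + 1 + t) * ((m' i : ℝ) + 1 / 2))) =
          ((2 : ℝ) ^ (g + 1 + t) * (1 / 2) ^ (g + 1 + t)) * ((m' i : ℝ) + 1 / 2) := by
        rw [pow_add (2 : ℝ) (g + 1) t]; ring
      rw [h8, two_half, one_mul, pow_add (2 : ℝ) (g + 1) t]
      ring
    have h9 : |(2 : ℝ) ^ t * y i| ≤ 7 / 16 := by
      rw [abs_mul, abs_of_pos (by positivity : (0 : ℝ) < 2 ^ t)]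
      calc (2 : ℝ) ^ t * |y i| ≤ (2 : ℝ) ^ t * (7 / 16 * (1 / 2) ^ t) :=
            mul_le_mul_of_nonneg_left h4 (by positivity)
        _ = 7 / 16 * ((2 : ℝ) ^ t * (1 / 2) ^ t) := by ring
        _ = 7 / 16 := by rw [h6, mul_one]
    rw [← h7, abs_le] at h9
    constructor <;> linarith [h9.1, h9.2]

end Pool.Agent.Run7.h557.BC
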