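import Pool.Agent.Run7.h991.BC.Iface

set_option autoImplicit false

open MeasureTheory Filter Topology Polynomial

namespace Pool.Agent.Run7.h557.BC

/-- the nodes -/
noncomputable def nod (M : ℕ) (l0 : ℝ) (k : Fin M) : ℝ := l0 * ((k : ℕ) + 1) / M

/-- the weights -/
noncomputable def wei (M : ℕ) (l0 : ℝ) (k : Fin M) : ℝ :=
  (Lagrange.basis Finset.univ (nod M l0) k).eval 1

theorem nod_pos {M : ℕ} {l0 : ℝ} (h : 0 < l0) (k : Fin M) : 0 < nod M l0 k := by
  have : 0 < M := lt_of_le_of_lt (Nat.zero_le _) k.2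
  have hM : (0 : ℝ) < M := by exact_mod_cast this
  unfold nod
  positivity

theorem nod_le {M : ℕ} {l0 : ℝ} (h : 0 < l0) (k : Fin M) : nod M l0 k ≤ l0 := by
  have : 0 < M := lt_of_le_of_lt (Nat.zero_le _) k.2
  have hM : (0 : ℝ) < M := by exact_mod_cast this
  unfold nod
  rw [div_le_iff₀ hM]
  have : ((k : ℕ) : ℝ) + 1 ≤ M := by exact_mod_cast k.2
  exact mul_le_mul_of_nonneg_left this h.le

theorem nod_sub {M : ℕ} {l0 : ℝ} (h : 0 < l0) {k j : Fin M} (hkj : k ≠ j) :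
    l0 / M ≤ |nod M l0 k - nod M l0 j| := by
  have : 0 < M := lt_of_le_of_lt (Nat.zero_le _) k.2
  have hM : (0 : ℝ) < M := by exact_mod_cast this
  have h1 : nod M l0 k - nod M l0 j = l0 / M * (((k : ℕ) : ℝ) - ((j : ℕ) : ℝ)) := by
    unfold nod; field_simp; ring
  rw [h1, abs_mul, abs_of_pos (by positivity : 0 < l0 / M)]
  have h2 : (1 : ℝ) ≤ |((k : ℕ) : ℝ) - ((j : ℕ) : ℝ)| := by
    have h3 : ((k : ℕ) : ℤ) - ((j : ℕ) : ℤ) ≠ 0 := by
      intro h4
      apply hkj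
      apply Fin.ext
      omega
    have h4 : (1 : ℤ) ≤ |((k : ℕ) : ℤ) - ((j : ℕ) : ℤ)| := Int.one_le_abs h3
    have h5 : ((1 : ℤ) : ℝ) ≤ ((|((k : ℕ) : ℤ) - ((j : ℕ) : ℤ)| : ℤ) : ℝ) := by exact_mod_cast h4
    rw [Int.cast_abs] at h5
    push_cast at h5
    exact h5
  have h6 : 0 < l0 / M := by positivity
  nlinarith

theorem nod_inj {M : ℕ} {l0 : ℝ} (h : 0 < l0) : Function.Injective (nod M l0) := by
  intro k j hkj
  by_contra hne
  have h1 := nod_sub h hne
  rw [hkj, sub_self, abs_zero] at h1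
  have : 0 < M := lt_of_le_of_lt (Nat.zero_le _) k.2
  have hM : (0 : ℝ) < M := by exact_mod_cast this
  have : 0 < l0 / M := by positivity
  linarith

theorem wei_sum {M : ℕ} {l0 : ℝ} (h : 0 < l0) (i : ℕ) (hi : i < M) :
    ∑ k, wei M l0 k * nod M l0 k ^ i = 1 := by
  have h1 : (X ^ i : ℝ[X]) = Lagrange.interpolate Finset.univ (nod M l0)
      (fun k => (X ^ i : ℝ[X]).eval (nod M l0 k)) := by
    apply Lagrange.eq_interpolate
    · exact (nod_inj h).injOn
    · rw [degree_X_pow]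
      simp only [Finset.card_univ, Fintype.card_fin]
      exact_mod_cast hi
  have h2 := congrArg (fun P : ℝ[X] => P.eval 1) h1
  simp only [Lagrange.interpolate_apply, eval_finsetSum, eval_mul, eval_C, eval_pow, eval_X,
    one_pow] at h2
  rw [h2]
  refine Finset.sum_congr rfl (fun k _ => ?_)
  unfold wei
  ring

theorem wei_bd {M : ℕ} {l0 : ℝ} (h : 0 < l0) (h1 : l0 ≤ 1) (k : Fin M) :
    |wei M l0 k| ≤ (M / l0) ^ (M - 1) := by
  have : 0 < M := lt_of_le_of_lt (Nat.zero_le _) k.2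
  have hM : (0 : ℝ) < M := by exact_mod_cast this
  unfold wei Lagrange.basis
  rw [eval_prod, Finset.abs_prod]
  have hc : (Finset.univ.erase k).card = M - 1 := by
    rw [Finset.card_erase_of_mem (Finset.mem_univ _), Finset.card_univ, Fintype.card_fin]
  rw [← hc, ← Finset.prod_const]
  refine Finset.prod_le_prod (fun _ _ => abs_nonneg _) (fun j hj => ?_)
  have hjk : k ≠ j := (Finset.ne_of_mem_erase hj).symm
  unfold Lagrange.basisDivisor
  rw [eval_mul, eval_C, eval_sub, eval_X, eval_C, abs_mul, abs_inv]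
  have h2 : |1 - nod M l0 j| ≤ 1 := by
    rw [abs_le]
    have := nod_pos h j
    have := nod_le h j
    constructor <;> linarith
  have h3 := nod_sub h hjk
  have h4 : 0 < l0 / M := by positivity
  have h5 : |nod M l0 k - nod M l0 j|⁻¹ ≤ M / l0 := by
    rw [show (M : ℝ) / l0 = (l0 / M)⁻¹ by rw [inv_div]]
    exact inv_anti₀ h4 h3
  calc |nod M l0 k - nod M l0 j|⁻¹ * |1 - nod M l0 j| ≤ (M / l0) * 1 :=
        mul_le_mul h5 h2 (abs_nonneg _) (by positivity)
    _ = M / l0 := mul_one _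

theorem lw : Run7.h991.BC.S_LW := by
  intro n M hM1
  have hM : (0 : ℝ) < M := by exact_mod_cast hM1
  refine ⟨(M : ℝ) * (M : ℝ) ^ (n + M - 1), by positivity, ?_⟩
  intro l0 h0 h1
  refine ⟨nod M l0, wei M l0, fun k => ⟨nod_pos h0 k, nod_le h0 k⟩,
    fun i hi => wei_sum h0 i hi, ?_⟩
  have h2 : ∀ k : Fin M, |wei M l0 k| * ((nod M l0 k)⁻¹) ^ n ≤ (M / l0) ^ (n + M - 1) := by
    intro k
    have h3 : (nod M l0 k)⁻¹ ≤ M / l0 := by
      rw [show (M : ℝ) / l0 = (l0 / M)⁻¹ by rw [inv_div]]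
      refine inv_anti₀ (by positivity) ?_
      unfold nod
      gcongr
      have : (0 : ℝ) ≤ ((k : ℕ) : ℝ) := by positivity
      nlinarith
    calc |wei M l0 k| * ((nod M l0 k)⁻¹) ^ n ≤ (M / l0) ^ (M - 1) * (M / l0) ^ n := by
          refine mul_le_mul (wei_bd h0 h1 k) ?_ (by have := nod_pos h0 k; positivity)
            (by positivity)
          exact pow_le_pow_left₀ (by have := nod_pos h0 k; positivity) h3 n
      _ = (M / l0) ^ (n + M - 1) := by
          rw [← pow_add]; congr 1; omega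
  calc ∑ k, |wei M l0 k| * ((nod M l0 k)⁻¹) ^ n ≤ ∑ _k : Fin M, (M / l0) ^ (n + M - 1) :=
        Finset.sum_le_sum (fun k _ => h2 k)
    _ = (M : ℝ) * (M : ℝ) ^ (n + M - 1) * (l0⁻¹) ^ (n + M - 1) := by
        rw [Finset.sum_const, Finset.card_univ, Fintype.card_fin, nsmul_eq_mul, div_pow, inv_pow]
        rw [div_eq_mul_inv]
        ring

end Pool.Agent.Run7.h557.BC
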