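import Pool.Agent.Run7.h991.BC.Iface

set_option autoImplicit false

open MeasureTheory Filter Topology
open scoped ENNReal ContDiff

namespace Pool.Agent.Run7.h557.BC

theorem add_rpow_le {a b p : ℝ} (ha : 0 ≤ a) (hb : 0 ≤ b) (hp : 0 ≤ p) (hp1 : p ≤ 1) :
    (a + b) ^ p ≤ a ^ p + b ^ p := by
  have := NNReal.rpow_add_le_add_rpow (⟨a, ha⟩ : NNReal) ⟨b, hb⟩ hp hp1
  exact_mod_cast this

theorem sum_rpow_le {ι : Type} (s : Finset ι) (f : ι → ℝ) (hf : ∀ i ∈ s, 0 ≤ f i) {p : ℝ}
    (hp : 0 < p) (hp1 : p ≤ 1) : (∑ i ∈ s, f i) ^ p ≤ ∑ i ∈ s, (f i) ^ p := by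
  classical
  induction s using Finset.induction_on with
  | empty => simp [Real.zero_rpow hp.ne']
  | insert a s ha ih =>
    rw [Finset.sum_insert ha, Finset.sum_insert ha]
    have h1 := ih (fun i hi => hf i (Finset.mem_insert_of_mem hi))
    have h2 : 0 ≤ ∑ i ∈ s, f i :=
      Finset.sum_nonneg (fun i hi => hf i (Finset.mem_insert_of_mem hi))
    have h3 := add_rpow_le (hf a (Finset.mem_insert_self _ _)) h2 hp.le hp1
    linarith

/-- the iteration -/
noncomputable def mk {ι : Type} [DecidableEq ι] (s : Finset ι) (A : ι → Finset ι) (h : ℝ) :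
    ℕ → ι → ℝ
  | 0, _ => 1
  | k + 1, j => 1 + ∑ i ∈ s.filter (fun i => j ∈ A i), h * mk s A h k i

theorem mk_one {ι : Type} [DecidableEq ι] (s : Finset ι) (A : ι → Finset ι) {h : ℝ} (hh : 0 ≤ h)
    (k : ℕ) (i : ι) : 1 ≤ mk s A h k i := by
  induction k generalizing i with
  | zero => simp [mk]
  | succ k ih =>
    simp only [mk]
    have : 0 ≤ ∑ i ∈ s.filter (fun i' => i ∈ A i'), h * mk s A h k i :=
      Finset.sum_nonneg (fun i _ => mul_nonneg hh (zero_le_one.trans (ih i)))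
    linarith

theorem mk_mono {ι : Type} [DecidableEq ι] (s : Finset ι) (A : ι → Finset ι) {h : ℝ} (hh : 0 ≤ h)
    (k : ℕ) (i : ι) : mk s A h k i ≤ mk s A h (k + 1) i := by
  induction k generalizing i with
  | zero => exact mk_one s A hh 1 i
  | succ k ih =>
    simp only [mk]
    gcongr with j hj
    exact ih j

theorem mk_T {ι : Type} [DecidableEq ι] (s : Finset ι) (W : ι → ℝ) (A : ι → Finset ι) (h p : ℝ)
    (hh : 0 ≤ h) (hp : 0 < p) (hp1 : p ≤ 1) (hW : ∀ i ∈ s, 0 < W i) (hA : ∀ i ∈ s, A i ⊆ s)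
    (hs : ∀ i ∈ s, h ^ p * ∑ j ∈ A i, W j ≤ W i / 2) (k : ℕ) :
    ∑ i ∈ s, (mk s A h k i) ^ p * W i ≤ 2 * ∑ i ∈ s, W i := by
  have hW0 : 0 ≤ ∑ i ∈ s, W i := Finset.sum_nonneg (fun i hi => (hW i hi).le)
  induction k with
  | zero => simp only [mk, Real.one_rpow, one_mul]; linarith
  | succ k ih =>
    have h1 : ∀ j ∈ s, (mk s A h (k + 1) j) ^ p * W j ≤
        W j + ∑ i ∈ s, if j ∈ A i then h ^ p * (mk s A h k i) ^ p * W j else 0 := by
      intro j hj
      have hm0 : ∀ i, 0 ≤ h * mk s A h k i :=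
        fun i => mul_nonneg hh (zero_le_one.trans (mk_one s A hh k i))
      have h2 : (mk s A h (k + 1) j) ^ p ≤
          1 + ∑ i ∈ s.filter (fun i => j ∈ A i), h ^ p * (mk s A h k i) ^ p := by
        simp only [mk]
        refine (add_rpow_le zero_le_one (Finset.sum_nonneg (fun i _ => hm0 i)) hp.le hp1).trans ?_
        rw [Real.one_rpow]
        gcongr
        refine (sum_rpow_le _ _ (fun i _ => hm0 i) hp hp1).trans (le_of_eq ?_)
        refine Finset.sum_congr rfl (fun i _ => ?_)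
        rw [Real.mul_rpow hh (zero_le_one.trans (mk_one s A hh k i))]
      calc (mk s A h (k + 1) j) ^ p * W j
          ≤ (1 + ∑ i ∈ s.filter (fun i => j ∈ A i), h ^ p * (mk s A h k i) ^ p) * W j :=
            mul_le_mul_of_nonneg_right h2 (hW j hj).le
        _ = W j + ∑ i ∈ s, if j ∈ A i then h ^ p * (mk s A h k i) ^ p * W j else 0 := by
            rw [add_mul, one_mul, Finset.sum_mul, Finset.sum_filter]
    calc ∑ j ∈ s, (mk s A h (k + 1) j) ^ p * W j
        ≤ ∑ j ∈ s, (W j + ∑ i ∈ s, if j ∈ A i then h ^ p * (mk s A h k i) ^ p * W j else 0) :=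
          Finset.sum_le_sum h1
      _ = ∑ j ∈ s, W j + ∑ i ∈ s, ∑ j ∈ s,
            (if j ∈ A i then h ^ p * (mk s A h k i) ^ p * W j else 0) := by
          rw [Finset.sum_add_distrib, Finset.sum_comm]
      _ ≤ ∑ j ∈ s, W j + ∑ i ∈ s, (mk s A h k i) ^ p * W i / 2 := by
          gcongr with i hi
          have h3 : ∑ j ∈ s, (if j ∈ A i then h ^ p * (mk s A h k i) ^ p * W j else 0) =
              (mk s A h k i) ^ p * (h ^ p * ∑ j ∈ A i, W j) := by
            rw [← Finset.sum_filter]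
            have h4 : s.filter (fun j => j ∈ A i) = A i := by
              ext j
              simp only [Finset.mem_filter]
              exact ⟨fun hj => hj.2, fun hj => ⟨hA i hi hj, hj⟩⟩
            rw [h4, Finset.mul_sum, Finset.mul_sum]
            refine Finset.sum_congr rfl (fun j _ => by ring)
          rw [h3]
          have h5 : 0 ≤ (mk s A h k i) ^ p :=
            Real.rpow_nonneg (zero_le_one.trans (mk_one s A hh k i)) p
          have h6 := mul_le_mul_of_nonneg_left (hs i hi) h5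
          linarith
      _ ≤ 2 * ∑ i ∈ s, W i := by
          rw [← Finset.sum_div]
          linarith

theorem mu : Run7.h991.BC.S_MU := by
  intro ι _ s W A h p hh hp hp1 hW hA hs
  have hW0 : 0 ≤ ∑ i ∈ s, W i := Finset.sum_nonneg (fun i hi => (hW i hi).le)
  have hmono : ∀ i, Monotone (fun k => mk s A h k i) :=
    fun i => monotone_nat_of_le_succ (fun k => mk_mono s A hh k i)
  have hbd : ∀ i ∈ s, ∀ k, mk s A h k i ≤ (2 * (∑ i ∈ s, W i) / W i) ^ (1 / p) := by
    intro i hi k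
    have h0 : 0 ≤ mk s A h k i := zero_le_one.trans (mk_one s A hh k i)
    have h1 : (mk s A h k i) ^ p * W i ≤ 2 * ∑ i ∈ s, W i := by
      refine le_trans ?_ (mk_T s W A h p hh hp hp1 hW hA hs k)
      refine Finset.single_le_sum (f := fun i => (mk s A h k i) ^ p * W i) (fun j hj => ?_) hi
      exact mul_nonneg (Real.rpow_nonneg (zero_le_one.trans (mk_one s A hh k j)) p) (hW j hj).le
    have h2 : (mk s A h k i) ^ p ≤ 2 * (∑ i ∈ s, W i) / W i := by
      rwa [le_div_iff₀ (hW i hi)]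
    calc mk s A h k i = ((mk s A h k i) ^ p) ^ (1 / p) := by
          rw [← Real.rpow_mul h0, mul_one_div_cancel hp.ne', Real.rpow_one]
      _ ≤ _ := Real.rpow_le_rpow (Real.rpow_nonneg h0 p) h2 (by positivity)
  have hB : ∀ i ∈ s, BddAbove (Set.range (fun k => mk s A h k i)) := by
    rintro i hi
    refine ⟨(2 * (∑ i ∈ s, W i) / W i) ^ (1 / p), ?_⟩
    rintro _ ⟨k, rfl⟩
    exact hbd i hi k
  have hT : ∀ i ∈ s, Tendsto (fun k => mk s A h k i) atTop (𝓝 (⨆ k, mk s A h k i)) :=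
    fun i hi => tendsto_atTop_ciSup (hmono i) (hB i hi)
  refine ⟨fun i => ⨆ k, mk s A h k i, ?_, ?_, ?_⟩
  · intro i hi
    exact le_trans (mk_one s A hh 0 i) (le_ciSup (hB i hi) 0)
  · intro j hj
    have h1 : Tendsto (fun k => 1 + ∑ i ∈ s.filter (fun i => j ∈ A i), h * mk s A h k i) atTop
        (𝓝 (1 + ∑ i ∈ s.filter (fun i => j ∈ A i), h * ⨆ k, mk s A h k i)) := by
      refine Tendsto.const_add _ (tendsto_finsetSum _ (fun i hi => ?_))
      exact (hT i (Finset.mem_filter.1 hi).1).const_mul h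
    refine le_of_tendsto h1 (Eventually.of_forall (fun k => ?_))
    exact le_ciSup (hB j hj) (k + 1)
  · have h1 : Tendsto (fun k => ∑ i ∈ s, (mk s A h k i) ^ p * W i) atTop
        (𝓝 (∑ i ∈ s, (⨆ k, mk s A h k i) ^ p * W i)) := by
      refine tendsto_finsetSum _ (fun i hi => ?_)
      refine Tendsto.mul_const _ ?_
      exact (hT i hi).rpow_const (Or.inr hp.le)
    exact le_of_tendsto h1 (Eventually.of_forall (fun k => mk_T s W A h p hh hp hp1 hW hA hs k))

end Pool.Agent.Run7.h557.BC
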