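import Pool.Agent.Run7.h991.BC.Iface

set_option autoImplicit false

open MeasureTheory Filter Topology
open scoped ContDiff ENNReal

namespace Pool.Agent.Run7.h557.BC

open Run7.h991.BC

theorem ubb (hDY : S_DY) (hAC : S_AC) (hPT : S_PT) (hGEO : S_GEO) (hLW : S_LW) : S_UBB := by
  intro n hn Φ hΦ α p hα hp hp1
  obtain ⟨β, hβ1, hβ2, hβ3, hβ4, -⟩ := hGEO n hn
  obtain ⟨M, hM⟩ := exists_nat_gt ((n : ℝ) / p)
  have hM1 : 1 ≤ M := by
    rcases Nat.eq_zero_or_pos M with h | h
    · subst h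
      have : (0 : ℝ) ≤ (n : ℝ) / p := by positivity
      simp only [Nat.cast_zero] at hM
      linarith
    · exact h
  have hMp : (n : ℝ) < α * p + (n + M) * p := by
    rw [div_lt_iff₀ hp] at hM
    have h1 : 0 < α * p := by positivity
    have h2 : 0 ≤ (n : ℝ) * p := by positivity
    nlinarith
  obtain ⟨C1, -, hlw⟩ := hLW n M hM1
  obtain ⟨l, w, hl, hw, -⟩ := hlw 1 one_pos le_rfl
  obtain ⟨C, hC, -, hCb⟩ := hAC n M Φ hn hΦ α p hα hp hp1 hM1 hMp l w hl hw β hβ1 hβ2 0
  refine ⟨C, hC, fun F => ?_⟩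
  classical
  have hanc : ∀ (j : ℕ) (x : E n), cell 0 x = par^[j] (cell j x) := by
    intro j x
    induction j with
    | zero => rfl
    | succ j ih => rw [ih, Function.iterate_succ_apply, ← (hDY n).1 j x]
  let F₀ : Finset (Fin n → ℤ) := F.image (fun q => par^[q.1] q.2)
  have hcomp : ∀ m : Fin n → ℤ, HasCompactSupport (fun x => β (x - ctr 0 m)) := by
    intro m
    exact hβ2.comp_homeomorph (Homeomorph.subRight (ctr 0 m))
  have hdiff : ∀ m : Fin n → ℤ, ContDiff ℝ ∞ (fun x => β (x - ctr 0 m)) := by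
    intro m
    exact hβ1.comp (contDiff_id.sub contDiff_const)
  refine ⟨fun x => ∑ m ∈ F₀, 1 * β (x - ctr 0 m), ?_, ?_, ?_, ?_⟩
  · exact ContDiff.sum (fun m _ => contDiff_const.mul (hdiff m))
  · have h1 : ∀ s : Finset (Fin n → ℤ),
        HasCompactSupport (fun x => ∑ m ∈ s, 1 * β (x - ctr 0 m)) := by
      intro s
      induction s using Finset.induction_on with
      | empty => simp only [Finset.sum_empty]; exact HasCompactSupport.zero
      | insert a s ha ih =>
        simp only [Finset.sum_insert ha]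
        refine HasCompactSupport.add ?_ ih
        simp only [one_mul]
        exact hcomp a
    exact h1 F₀
  · intro q hq x hx
    have hx' : cell q.1 x = q.2 := hx
    have h1 : par^[q.1] q.2 ∈ F₀ := Finset.mem_image_of_mem _ hq
    have h2 : x ∈ cube 0 (par^[q.1] q.2) := by
      show cell 0 x = _
      rw [hanc q.1 x, hx']
    have h3 := hβ4 0 _ x h2
    simp only [pow_zero, one_smul] at h3
    calc (1 : ℝ) = 1 * β (x - ctr 0 (par^[q.1] q.2)) := by rw [h3, one_mul]
      _ ≤ _ := Finset.single_le_sum (f := fun m => 1 * β (x - ctr 0 m))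
          (fun m _ => by rw [one_mul]; exact (hβ3 _).1) h1
  · calc besov Φ α p (cx fun x => ∑ m ∈ F₀, 1 * β (x - ctr 0 m))
        ≤ ∑ m ∈ F₀, ENNReal.ofReal (|(1 : ℝ)| ^ p) *
            besov Φ α p (cx (fun x => β (x - ctr 0 m))) :=
          hPT n Φ α p hp hp1.le F₀ (fun _ => (1 : ℝ)) (fun m x => β (x - ctr 0 m))
            (fun m _ => ⟨(hdiff m).continuous, hcomp m⟩)
      _ ≤ ∑ _m ∈ F₀, C := by
          refine Finset.sum_le_sum (fun m _ => ?_)
          rw [abs_one, Real.one_rpow, ENNReal.ofReal_one, one_mul]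
          exact hCb (ctr 0 m)
      _ = C * (F₀.card : ℝ≥0∞) := by rw [Finset.sum_const, nsmul_eq_mul, mul_comm]
      _ ≤ C * (F.card : ℝ≥0∞) := by
          gcongr
          exact Finset.card_image_le

end Pool.Agent.Run7.h557.BC
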